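import Pool.Agent.Work.MP_db9399_kr.Interface

/-! # MP_db9399, pieces of type K: FINR, VMIX and FIN without `UH` (helper68, compare FINQ) -/

set_option autoImplicit false

namespace Pool.Agent.Work.MP_db9399_kr.helper68

open Finset Classical
open Pool.Agent.Work.MP_db9399_all (nb)
open Pool.Agent.Work.MP_db9399_dn (IsMat Tot)
open Pool.Agent.Work.MP_db9399_bg (HPre)
open Pool.Agent.Work.MP_db9399_sl (InS Same Gout Gss Gin Gex Out Vert)
open Pool.Agent.Work.MP_db9399_sw (shs avl SHH wt wl)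

universe u

section
variable {V : Type u} [Fintype V] {k : ℕ}

theorem hpre_bot (G : SimpleGraph V) (c0 tu : V → Fin k) :
    HPre G (∅ : Finset V) c0 (⊥ : SimpleGraph V) tu :=
  { EG := bot_le
    mat := by
      intro v
      simp [nb]
    EU := fun v w h => absurd h (by simp)
    cov := fun u hu => absurd hu (notMem_empty u)
    ind := fun u hu => absurd hu (notMem_empty u)
    far := fun v u hu => absurd hu (notMem_empty u)
    cc := fun u u' h => absurd h (by simp)
    ct := fun u hu => absurd hu (notMem_empty u)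
    tt := fun u u' h => absurd h (by simp) }

theorem out_mono' {δ1 δ2 π : ℝ} (h : δ1 ≤ δ2) {G Gx Gr EH : SimpleGraph V} {d : ℕ}
    {Ys : Finset (Finset V)} {UH : Finset V} {c0 tu c : V → Fin k} {t : V → V → Fin k}
    {E : V → Finset (Fin k)} {K0 : Finset (Fin k)} {C : Fin 3 → Finset (Fin k)} {p : V → Fin 3}
    {a : V → Bool} {Z : Finset V} (hO : Out δ1 π G Gx Gr EH d Ys UH c0 tu c t E K0 C p a Z) :
    Out δ2 π G Gx Gr EH d Ys UH c0 tu c t E K0 C p a Z := by
  have hd : δ1 * (d : ℝ) ≤ δ2 * d := mul_le_mul_of_nonneg_right h (Nat.cast_nonneg _)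
  exact { hO with
    ZY := fun Y hY => (hO.ZY Y hY).trans hd
    cell := fun Y hY i l => (hO.cell Y hY i l).trans hd
    ld := fun Y hY b => (hO.ld Y hY b).trans hd }

theorem vert_mono' {δ1 δ2 : ℝ} (h : δ1 ≤ δ2) {G EH : SimpleGraph V} {d : ℕ}
    {Ys : Finset (Finset V)} {UH : Finset V} {c0 tu c : V → Fin k}
    {E : V → Finset (Fin k)} {K0 : Finset (Fin k)} {C : Fin 3 → Finset (Fin k)} {p : V → Fin 3}
    {Z : Finset V} {F : V → Finset (Fin k)} (hV : Vert δ1 G EH d Ys UH c0 tu c E K0 C p Z F) :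
    Vert δ2 G EH d Ys UH c0 tu c E K0 C p Z F := by
  have hd : δ1 * (d : ℝ) ≤ δ2 * d := mul_le_mul_of_nonneg_right h (Nat.cast_nonneg _)
  exact { hV with
    ZY := fun Y hY => (hV.ZY Y hY).trans hd
    ld := fun Y hY b => (hV.ld Y hY b).trans hd }

end

/-- **FINR** -/
theorem stmt_FINR (hVMIX : MP_db9399_sw.Stmt_VMIX.{u}) (hFIN : MP_db9399_sl.Stmt_FIN.{u}) :
    Stmt_FINR.{u} := by
  obtain ⟨δF, π, θF, dF, hδF, hπ, hπ3, hθF, hF⟩ := hFIN
  obtain ⟨δ1, θv, hδ1, hθv, hV⟩ := hVMIX (min δF (1 / 1000)) π (lt_min hδF (by norm_num))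
    (min_le_right _ _) hπ hπ3
  obtain ⟨θ, hθd⟩ : ∃ θ : ℝ, θ = min (min θF θv) (1 / 100) := ⟨_, rfl⟩
  have hθ0 : 0 < θ := by
    rw [hθd]
    exact lt_min (lt_min hθF hθv) (by norm_num)
  have hθ1 : θ ≤ θF := by rw [hθd]; exact (min_le_left _ _).trans (min_le_left _ _)
  have hθ2 : θ ≤ θv := by rw [hθd]; exact (min_le_left _ _).trans (min_le_right _ _)
  have hθ3 : θ ≤ 1 / 100 := by rw [hθd]; exact min_le_right _ _
  refine ⟨π, min δ1 δF, θ, hπ, hπ3, lt_min hδ1 hδF, hθ0, hθ3, ?_⟩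
  intro x hx hxθ
  obtain ⟨η, dV, hη, hV'⟩ := hV x hx (hxθ.trans hθ2)
  refine ⟨η, max (max dF dV) (max ⌈10 ^ 9 / x⌉₊ 1), hη, ?_⟩
  intro V _ k G d Ys c0 tu cc t E K0 C p a Z Fy hd hS hC hOut hFy
  have hdF : dF ≤ d := by omega
  have hdV : dV ≤ d := by omega
  have hdL : ⌈10 ^ 9 / x⌉₊ ≤ d := by omega
  have hd0 : (0 : ℝ) ≤ d := Nat.cast_nonneg _
  have hxd : 10 ^ 9 * ((1 : ℝ) * 1) ≤ x * d := by
    have h1 : 10 ^ 9 / x ≤ (d : ℝ) := (Nat.le_ceil _).trans (by exact_mod_cast hdL)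
    rw [div_le_iff₀ hx] at h1
    linarith
  have hxy : 10 ^ 9 * (1 : ℝ) ≤ x * (10 ^ 9 / x) := by
    rw [mul_div_cancel₀ _ hx.ne']
    norm_num
  have hshs : ∀ Y ∈ shs d Ys, Y ∈ Ys := fun Y hY => (mem_filter.mp hY).1
  have hpre := hpre_bot G c0 tu
  have hSHH : SHH x η θv 1 (10 ^ 9 / x) 1 1 G (⊥ : SimpleGraph V) d Ys ∅ ∅ ∅ ∅ c0 cc E
      (fun _ => ∅) K0 Fy ⊥ (fun _ => 0) :=
    { deg := hS.deg
      dis := hS.dis
      low := fun Y hY => le_trans (mul_le_mul_of_nonneg_right (by linarith) hd0) (hS.low Y hY)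
      inn := fun Y hY v hv =>
        le_trans (mul_le_mul_of_nonneg_right (by linarith) hd0) (hS.din Y hY v hv)
      sum := hS.sum
      uh2 := fun Y _ => by simp
      F0K := fun v hv => absurd hv (notMem_empty v)
      F0d := fun v hv => absurd hv (notMem_empty v)
      F0E := fun v hv => absurd hv (notMem_empty v)
      F0c := fun v hv => absurd hv (notMem_empty v)
      FyK := fun Y hY => (hFy Y hY).1
      Fyc := fun Y hY => (hFy Y hY).2.1
      Fyu := fun Y hY => (hFy Y hY).2.2.1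
      par := by
        intro Y hY
        refine (hFy Y hY).2.2.2.1.trans ?_
        have h1 : (Y ∩ (∅ : Finset V)).image c0 = ∅ := by simp
        rw [h1, union_empty, Nat.mul_zero, Nat.zero_add]
        refine le_of_eq ?_
        congr 1
      mat := by
        intro v
        simp [nb]
      mta := fun v w h => absurd h (by simp)
      mtn := by
        intro Y _
        simp [nb]
      pnu := by
        intro Y _
        have : (0 : ℝ) ≤ 10 * η * d := by positivity
        simpa using this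
      big := fun Y hY _ b hb hbF _ => (hFy Y hY).2.2.2.2 b hb hbF
      sml := fun Y hY => absurd hY (notMem_empty _)
      hsc := fun Y hY => absurd hY (notMem_empty _)
      gds := fun Y hY => absurd hY (notMem_empty _)
      gdd := fun v hv => absurd hv (notMem_empty _)
      gdi := fun v hv => absurd hv (notMem_empty _)
      gde := by
        intro Y hY
        have h1 : ∑ v ∈ Y, (nb (Gss G (⊥ : SimpleGraph V) Ys) v ∩ ∅).card = 0 := by
          simp
        rw [h1]
        simp only [Nat.cast_zero]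
        positivity }
  obtain ⟨c', Z', F, hc', hZ', hVert⟩ := hV' 1 (10 ^ 9 / x) 1 1 G ⊥ d Ys ∅ ∅ ∅ ∅ c0 tu cc
    t E (fun _ => ∅) K0 C p a Z Fy ⊥ (fun _ => 0) hdV le_rfl le_rfl le_rfl hxy hxd hpre
    hC (fun Y hY => (hS.upp Y hY).trans (mul_le_mul_of_nonneg_right (by linarith) hd0))
    (fun Y hY v hv => (hS.inn Y hY v hv).trans (mul_le_mul_of_nonneg_right hθ2 hd0))
    (out_mono' (min_le_left _ _) hOut) hSHH
  obtain ⟨t3, h1, _, _⟩ := hF G d k Ys ∅ c0 ⊥ tu cc c' t E F K0 C p a Z Z' hdF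
    hS.deg hS.dis
    (fun Y hY => ⟨le_trans (mul_le_mul_of_nonneg_right (by linarith) hd0) (hS.low Y hY),
      (hS.upp Y hY).trans (mul_le_mul_of_nonneg_right (by linarith) hd0)⟩)
    (fun Y hY v hv => le_trans (mul_le_mul_of_nonneg_right (by linarith) hd0)
      (hS.din Y hY v hv))
    (fun Y hY v hv => (hS.inn Y hY v hv).trans (mul_le_mul_of_nonneg_right hθ1 hd0)) hpre
    (out_mono' (min_le_right _ _) hOut) hc' hZ' (vert_mono' (min_le_left _ _) hVert)
  exact ⟨c', t3, h1⟩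

end Pool.Agent.Work.MP_db9399_kr.helper68
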