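import Pool.Agent.Work.MP_db9399_x4.XF4
import Pool.Agent.Work.MP_db9399_kr.Interface
import Pool.Agent.Work.MP_db9399_xf_helper62.KX

/-!
# MP_db9399, all scales: the pieces of type K, from KR (helper68; copy of `xf_helper62/KX.lean`)
-/

set_option autoImplicit false

namespace Pool.Agent.Work.MP_db9399_kr.helper68

open Finset Classical
open Pool.Agent.Work.MP_db9399_all (nb)
open Pool.Agent.Work.MP_db9399_lt (us)
open Pool.Agent.Work.MP_db9399_da
open Pool.Agent.Work.MP_db9399_sl (InS Same Gout Gss Gin Gex Out)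
open Pool.Agent.Work.MP_db9399_sw (Gxh Grh Lgt shs)
open Pool.Agent.Work.MP_db9399_sx (Grp)
open Pool.Agent.Work.MP_db9399_xf
open Pool.Agent.Work.MP_db9399_x4

universe u

section
variable {V : Type u} [Fintype V] {N J : ℕ}

/-- the edges coloured at a light vertex of a piece of type K -/
theorem nb_xt_xo {G : SimpleGraph V} {X : XD V N J} {v : V} (hv : Lk X v) :
    nb (xt G X) v = nb (xo G X) v := by
  ext w
  rw [mem_nb', mem_nb']
  change ((G.Adj v w ∧ ¬ (G.Adj v w ∧ v ∉ X.P.V0 ∧ w ∉ X.P.V0 ∧ X.P.pc v = X.P.pc w ∧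
    (X.P.ty (X.P.pc v) = Ty.B → X.P.sd v ≠ X.P.sd w))) ∧ ¬ (Lk X v ∧ Lk X w)) ↔
    (G.Adj v w ∧ ¬ (InT X Ty.K v ∧ InT X Ty.K w ∧
      (X.P.pc v = X.P.pc w ∨ (v ∉ X.Hv ∧ w ∉ X.Hv))))
  have h1 : v ∉ X.P.V0 := hv.1.1
  have h2 : X.P.ty (X.P.pc v) = Ty.K := hv.1.2
  have h3 : v ∉ X.Hv := hv.2
  have h4 : X.P.ty (X.P.pc v) = Ty.B → X.P.sd v ≠ X.P.sd w := by
    rw [h2]
    intro h
    cases h
  have h5 : X.P.pc v = X.P.pc w → X.P.ty (X.P.pc w) = Ty.K := fun h => by rw [← h]; exact h2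
  unfold Lk InT
  tauto

theorem KX4_main {πk θk z δ ε3 e1 θ' θ1 η0 η' : ℝ}
    (hθk1 : θk ≤ 1 / 100) (hθ1 : θ1 ≤ θ') (he1 : e1 ≤ ε3)
    (hδ : 0 < δ) {η : ℝ} (hη1 : 2 * η ≤ δ) (hη2 : η ≤ η0) (hη3 : η ≤ 1 / 10 ^ 4) (hη0 : 0 < η)
    {C g τ a : ℝ} {M : ℕ} {S : Fin J → Scl} (G : SimpleGraph V) (d : ℕ) (hd : 1 ≤ d)
    (X : XD V N J) (A : PalX) (t : V → V → ℕ) (c : V → ℕ) (U : Finset V) (cR : V → ℕ)
    (hP : PcX C g z θk θ1 η a M S G d X) (hA : PalXP πk A d)
    (hX : PosX4 η η' τ e1 G d X A t c U cR)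
    (hKR : ∀ (τ : ℝ) (G : SimpleGraph V) (Ys : Finset (Finset V)) (Hs U : Finset V)
      (c0 tu cc cR : V → Fin (d + 2)) (t : V → V → Fin (d + 2)) (E : V → Finset (Fin (d + 2)))
      (K0 : Finset (Fin (d + 2))) (C : Fin 3 → Finset (Fin (d + 2))) (p : V → Fin 3)
      (a : V → Bool) (Z : Finset V), Grp θk θ' η0 G ⊥ d Ys ∅ Hs c0 tu →
      (∀ Y ∈ Ys, ((Y ∩ Hs).card : ℝ) ≤ η0 * Y.card) → (∀ y ∈ U, y ∉ Hs) →
      Out δ πk G (Gxh G Ys Hs) (Grh G ⊥ Ys Hs) ⊥ d Ys ∅ c0 tu cc t E K0 C p a Z →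
      (∀ j, ((C j).card : ℝ) ≤ πk * d + 1) → OwnR z τ ε3 G d Ys U cR cc →
      RsQ η' ε3 G d Ys U cR cc E K0 →
      ∃ (c' : V → Fin (d + 2)) (t3 : V → V → Fin (d + 2)), MP_db9399_dn.Tot G c' t3) :
    ∃ (c1 : V → ℕ) (t1 : V → V → ℕ), TotX d G c1 t1 := by
  have hd0 : (0 : ℝ) ≤ d := Nat.cast_nonneg d
  have hFlt : ∀ v, ∀ b ∈ Ft (xo G X) t v, b < d + 2 := by
    intro v b hb
    obtain ⟨w, hw, rfl⟩ := mem_image.1 hb
    exact hX.lt v w (mem_nb'.1 hw)
  have hmemE : ∀ v b, b < d + 2 → (fc d b ∈ (Ft (xo G X) t v).image (fc d) ↔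
      b ∈ Ft (xo G X) t v) := by
    intro v b hb
    constructor
    · intro h
      obtain ⟨b', hb', he⟩ := mem_image.1 h
      rw [← fc_inj (hFlt v b' hb') hb he]
      exact hb'
    · exact fun h => mem_image_of_mem _ h
  have hxoK : ∀ v w, ¬ InT X Ty.K v → G.Adj v w → (xo G X).Adj v w := fun v w hv h =>
    ⟨h, fun h' => hv h'.1⟩
  have hYU : ∀ Y ∈ YsK X, (Y.card : ℝ) ≤ (1 + θk) * d := by
    intro Y hY
    obtain ⟨n, hn, rfl⟩ := mem_YsK.1 hY
    exact hP.kU n hn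
  have hYH : ∀ Y ∈ YsK X, ((Y ∩ HsK X).card : ℝ) ≤ η * Y.card := by
    intro Y hY
    obtain ⟨n, hn, rfl⟩ := mem_YsK.1 hY
    refine le_trans ?_ (hP.kh n hn)
    exact_mod_cast card_le_card (inter_subset_inter_left (filter_subset _ _))
  have hG : Grp θk θ' η0 G (⊥ : SimpleGraph V) d (YsK X) ∅ (HsK X)
      (fun _ => fc d 0) (fun _ => fc d 0) := by
    refine { deg := fun v => (hP.reg v).le, pre := ?_, dis := ?_, low := ?_, upp := hYU,
             din := ?_, inn := ?_, sum := ?_, uh2 := ?_, hsS := ?_, lig := ?_, hsc := ?_ }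
    · exact { EG := bot_le
              mat := by
                intro v
                simp [nb]
              EU := fun v w h => absurd h (by simp)
              cov := fun u hu => absurd hu (notMem_empty u)
              ind := fun u hu => absurd hu (notMem_empty u)
              far := fun v u hu => absurd hu (notMem_empty u)
              cc := fun u u' h => absurd h (by simp)
              ct := fun u hu => absurd hu (notMem_empty u)
              tt := fun u u' h => absurd h (by simp) }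
    · intro Y hY Y' hY' hne
      obtain ⟨n, hn, rfl⟩ := mem_YsK.1 hY
      obtain ⟨n', hn', rfl⟩ := mem_YsK.1 hY'
      rw [disjoint_left]
      intro v hv hv'
      apply hne
      rw [← (mem_pV'.1 hv).2, ← (mem_pV'.1 hv').2]
    · intro Y hY
      obtain ⟨n, hn, rfl⟩ := mem_YsK.1 hY
      exact hP.kL n hn
    · intro Y hY v hv
      obtain ⟨n, hn, rfl⟩ := mem_YsK.1 hY
      obtain ⟨h1, h2⟩ := mem_pV'.1 hv
      have := hP.kd v ⟨h1, by rw [h2]; exact hn⟩
      rwa [h2] at this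
    · intro Y hY v hv
      obtain ⟨n, hn, rfl⟩ := mem_YsK.1 hY
      obtain ⟨h1, h2⟩ := mem_pV'.1 hv
      have := hP.ki v ⟨h1, by rw [h2]; exact hn⟩
      rwa [h2] at this
    · intro Y hY
      obtain ⟨n, hn, rfl⟩ := mem_YsK.1 hY
      refine (hP.ks n hn).trans ?_
      exact mul_le_mul_of_nonneg_right (mul_le_mul_of_nonneg_right hη2 hd0) (Nat.cast_nonneg _)
    · intro Y _
      simp
    · intro v hv
      exact inS_iff.2 (mem_filter.1 hv).2
    · intro Y hY v hv hvH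
      obtain ⟨n, hn, rfl⟩ := mem_YsK.1 hY
      obtain ⟨h1, h2⟩ := mem_pV'.1 hv
      have h3 : InT X Ty.K v := ⟨h1, by rw [h2]; exact hn⟩
      have := hP.kl v ⟨h3, fun h => hvH (mem_filter.2 ⟨h, h3⟩)⟩
      rw [h2] at this
      refine le_trans (mul_le_mul_of_nonneg_right ?_ hd0) this
      linarith
    · intro Y hY
      have h1 := hYH Y hY
      have h2 : ((10 ^ 4 * (Y ∩ HsK X).card : ℕ) : ℝ) ≤ (Y.card : ℝ) := by
        push_cast
        have h3 : η * (Y.card : ℝ) ≤ 1 / 10 ^ 4 * Y.card :=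
          mul_le_mul_of_nonneg_right hη3 (Nat.cast_nonneg _)
        linarith
      exact_mod_cast h2
  have hnbv : ∀ v, InS (YsK X) v → ((Ft (xo G X) t v).image (fc d)).card +
      (nb (Gin G (⊥ : SimpleGraph V) (YsK X)) v).card +
      (nb (Grh G (⊥ : SimpleGraph V) (YsK X) (HsK X)) v).card = d := by
    intro v _
    have e1 : ((Ft (xo G X) t v).image (fc d)).card = (nb (xo G X) v).card := by
      rw [card_image_of_injOn, Ft, card_image_of_injOn (hX.inj v)]
      intro a ha b hb h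
      exact fc_inj (hFlt v a ha) (hFlt v b hb) h
    have e2 : nb G v = (nb (xo G X) v ∪ nb (Gin G (⊥ : SimpleGraph V) (YsK X)) v) ∪
        nb (Grh G (⊥ : SimpleGraph V) (YsK X) (HsK X)) v := by
      ext w
      rw [mem_union, mem_union, mem_nb', mem_nb', mem_nb', mem_nb']
      change _ ↔ ((G.Adj v w ∧ ¬ _) ∨ (G.Adj v w ∧ Same (YsK X) v w ∧ ¬ False)) ∨
        (G.Adj v w ∧ ¬ Same (YsK X) v w ∧ Lgt (YsK X) (HsK X) v ∧ Lgt (YsK X) (HsK X) w ∧
          ¬ False)
      rw [lgt_iff, lgt_iff, same_iff]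
      unfold Lk
      tauto
    have d1 : Disjoint (nb (xo G X) v) (nb (Gin G (⊥ : SimpleGraph V) (YsK X)) v) := by
      rw [disjoint_left]
      intro w h1 h2
      have h1' := mem_nb'.1 h1
      have h2' : Same (YsK X) v w := (mem_nb'.1 h2).2.1
      rw [same_iff] at h2'
      exact h1'.2 ⟨h2'.1, h2'.2.1, Or.inl h2'.2.2⟩
    have d2 : Disjoint (nb (xo G X) v ∪ nb (Gin G (⊥ : SimpleGraph V) (YsK X)) v)
        (nb (Grh G (⊥ : SimpleGraph V) (YsK X) (HsK X)) v) := by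
      rw [disjoint_left]
      intro w h1 h2
      have h2' := mem_nb'.1 h2
      have h3 : ¬ Same (YsK X) v w := h2'.2.1
      have h4 : Lk X v := lgt_iff.1 h2'.2.2.1
      have h5 : Lk X w := lgt_iff.1 h2'.2.2.2.1
      rcases mem_union.1 h1 with h1 | h1
      · exact (mem_nb'.1 h1).2 ⟨h4.1, h5.1, Or.inr ⟨h4.2, h5.2⟩⟩
      · exact h3 (mem_nb'.1 h1).2.1
    rw [e1, ← card_union_of_disjoint d1, ← card_union_of_disjoint d2, ← e2, hP.reg v]
  have hO : Out δ πk G (Gxh G (YsK X) (HsK X)) (Grh G (⊥ : SimpleGraph V) (YsK X) (HsK X))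
      (⊥ : SimpleGraph V) d (YsK X) ∅ (fun _ => fc d 0) (fun _ => fc d 0)
      (fun v => fc d (c v)) (fun v w => fc d (t v w))
      (fun v => (Ft (xo G X) t v).image (fc d)) univ (fun j => (A.C j).image (fc d)) X.P.th
      X.P.sd (HsK X) := by
    refine { K0c := by simp, cU := fun v hv => absurd hv (notMem_empty v),
             cK := fun v _ => mem_univ _, cc := ?_, ts := ?_, te := ?_, tK := ?_, tc := ?_,
             ti := ?_, Et := ?_, EK := fun v _ _ => subset_univ _,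
             EU := fun v hv => absurd hv (notMem_empty v), Ed := hnbv,
             CK := fun j => subset_univ _, Cc := ?_, Cd := ?_,
             UZ := fun v hv => absurd hv (notMem_empty v), ZY := ?_, av := ?_, cell := ?_,
             ld := ?_ }
    · intro v w hvw hv hw h
      have hv' : ¬ InT X Ty.K v := fun h' => notMem_empty v (hv (inS_iff.2 h'))
      have hw' : ¬ InT X Ty.K w := fun h' => notMem_empty w (hw (inS_iff.2 h'))
      exact hX.cc v w hv' hw' hvw (fc_inj (hX.clt v hv') (hX.clt w hw') h)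
    · intro v w
      change fc d (t v w) = fc d (t w v)
      rw [hX.sym v w]
    · intro v w h
      exact absurd h (by simp)
    · intro v w _ _
      exact mem_univ _
    · intro v w hvw hv h
      have hv' : ¬ InT X Ty.K v := fun h' => notMem_empty v (hv (inS_iff.2 h'))
      have h1 := gxh_iff.1 hvw
      have h2 := fc_inj (hX.lt v w h1) (hX.clt v hv') h
      exact hX.ct v hv' (mem_image.2 ⟨w, mem_nb'.2 h1, h2⟩)
    · intro v w hw w' hw' h
      have h1 : (xo G X).Adj v w := hw.elim (fun h => gxh_iff.1 h) fun h => absurd h (by simp)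
      have h2 : (xo G X).Adj v w' := hw'.elim (fun h => gxh_iff.1 h) fun h => absurd h (by simp)
      exact hX.inj v (by exact mem_coe.2 (mem_nb'.2 h1)) (by exact mem_coe.2 (mem_nb'.2 h2))
        (fc_inj (hX.lt v w h1) (hX.lt v w' h2) h)
    · intro v w _ hw
      have h1 : (xo G X).Adj v w := hw.elim (fun h => gxh_iff.1 h) fun h => absurd h (by simp)
      exact mem_image_of_mem _ (mem_image_of_mem _ (mem_nb'.2 h1))
    · intro j
      refine (hA.Cc j).1.trans (le_of_eq ?_)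
      rw [card_image_of_injOn]
      intro a ha b hb h
      exact fc_inj (mem_range.1 (hA.Clt j ha)) (mem_range.1 (hA.Clt j hb)) h
    · intro i j hij
      rw [disjoint_left]
      intro b h1 h2
      obtain ⟨b1, hb1, rfl⟩ := mem_image.1 h1
      obtain ⟨b2, hb2, he⟩ := mem_image.1 h2
      have := fc_inj (mem_range.1 (hA.Clt j hb2)) (mem_range.1 (hA.Clt i hb1)) he
      rw [this] at hb2
      exact disjoint_left.1 (hA.Cdis i j hij) hb1 hb2
    · intro Y hY
      have h1 := hYH Y hY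
      have h2 := hYU Y hY
      have h3 : η * (Y.card : ℝ) ≤ η * ((1 + θk) * d) := mul_le_mul_of_nonneg_left h2 hη0.le
      have h4 : η * ((1 + θk) * d) ≤ δ * d := by
        have : η * (1 + θk) ≤ δ := by nlinarith
        nlinarith
      linarith
    · intro v hv hvZ
      have hv' := inS_iff.1 hv
      have hL : Lk X v := ⟨hv', fun h => hvZ (mem_filter.2 ⟨h, hv'⟩)⟩
      have h1 := hX.rK v hL
      rw [disjoint_left] at h1 ⊢
      intro b hb hb'
      obtain ⟨b1, hb1, rfl⟩ := mem_image.1 hb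
      obtain ⟨b2, hb2, he⟩ := mem_image.1 hb'
      have := fc_inj (mem_range.1 (hA.Clt _ hb2)) (hFlt v b1 hb1) he
      rw [this] at hb2
      exact h1 hb1 hb2
    · intro Y hY i l
      obtain ⟨n, hn, rfl⟩ := mem_YsK.1 hY
      have h1 := hP.kC n hn i l
      have h2 : (MP_db9399_lt.cell (thn X.P n) (sdn X.P n) i l).card =
          ((pV X.P n).filter (fun v => X.P.th v = i ∧ X.P.sd v = l)).card := by
        refine card_bij (fun v _ => v.1) ?_ ?_ ?_
        · intro v hv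
          have hv' := (mem_filter.1 hv).2
          exact mem_filter.2 ⟨mem_pV'.2 v.2, hv'⟩
        · intro v _ w _ h
          exact Subtype.ext h
        · intro v hv
          obtain ⟨hv1, hv2⟩ := mem_filter.1 hv
          exact ⟨⟨v, mem_pV'.1 hv1⟩, mem_filter.2 ⟨mem_univ _, hv2⟩, rfl⟩
      have h3 : Fintype.card (Ts X.P n) = (pV X.P n).card := by
        rw [Fintype.card_subtype]
        rfl
      rw [h2, h3] at h1
      refine h1.trans (mul_le_mul_of_nonneg_right (by linarith) hd0)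
    · intro Y hY b
      obtain ⟨n, hn, rfl⟩ := mem_YsK.1 hY
      have h1 := hX.lK n hn (b : ℕ)
      refine le_trans ?_ (h1.trans (mul_le_mul_of_nonneg_right (by linarith) hd0))
      have h2 : ((pV X.P n).filter (fun v => v ∉ HsK X ∧
          b ∈ (Ft (xo G X) t v).image (fc d))) ⊆
          (pV X.P n).filter (fun v => v ∉ X.Hv ∧ (b : ℕ) ∈ Ft (xo G X) t v) := by
        intro v hv
        obtain ⟨hv1, hv2, hv3⟩ := mem_filter.1 hv
        have h4 := mem_pV'.1 hv1
        refine mem_filter.2 ⟨hv1, fun h => hv2 (mem_filter.2 ⟨h, h4.1, by rw [h4.2]; exact hn⟩),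
          ?_⟩
        have hb : fc d (b : ℕ) = b := Fin.ext (fc_val b.2)
        rw [← hb] at hv3
        exact (hmemE v _ b.2).1 hv3
      exact_mod_cast card_le_card h2
  have hpc : ∀ n, X.P.ty n = Ty.K → ∀ y ∈ U, y ∈ pV X.P n ↔ X.P.pc y = n := by
    intro n _ y hy
    exact ⟨fun h => (mem_pV'.1 h).2, fun h => mem_pV'.2 ⟨(hX.UK y hy).1.1.1, h⟩⟩
  have hOwn : OwnR z τ ε3 G d (YsK X) U (fun v => fc d (cR v)) (fun v => fc d (c v)) := by
    refine { abs := ?_, dif := ?_, non := ?_ }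
    · intro Y hY w hw
      obtain ⟨n, hn, rfl⟩ := mem_YsK.1 hY
      exact hP.kz n hn w fun h => hw ⟨_, hY, h⟩
    · intro Y hY w w' hw hw' hne h1 h2 h
      obtain ⟨hY1, hY2⟩ := mem_filter.1 hY
      obtain ⟨n, hn, rfl⟩ := mem_YsK.1 hY1
      have hw1 : ¬ InT X Ty.K w := fun h' => hw (inS_iff.2 h')
      have hw1' : ¬ InT X Ty.K w' := fun h' => hw' (inS_iff.2 h')
      exact hX.dif n hn hY2 w w' hw1 hw1' hne h1 h2 (fc_inj (hX.clt w hw1) (hX.clt w' hw1') h)
    · intro Y hY b hb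
      obtain ⟨hY1, hY2⟩ := mem_filter.1 hY
      obtain ⟨n, hn, rfl⟩ := mem_YsK.1 hY1
      refine le_trans ?_ ((hX.non n hn hY2 (b : ℕ) ?_).trans
        (mul_le_mul_of_nonneg_right he1 hd0))
      · have h1 : (univ.filter (fun w => ¬ InS (YsK X) w ∧
            fc d (c w) = b ∧ ((nb G w ∩ pV X.P n).card : ℝ) < τ * d)) ⊆
            univ.filter (fun w => ¬ InT X Ty.K w ∧ c w = (b : ℕ) ∧
              ((nb G w ∩ pV X.P n).card : ℝ) < τ * d) := by
          intro w hw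
          obtain ⟨_, hw1, hw3, hw4⟩ := mem_filter.1 hw
          have hw1' : ¬ InT X Ty.K w := fun h' => hw1 (inS_iff.2 h')
          refine mem_filter.2 ⟨mem_univ _, hw1', ?_, hw4⟩
          rw [← hw3, fc_val (hX.clt w hw1')]
        exact_mod_cast sum_le_sum_of_subset h1
      · intro y hy hyn h
        exact hb y (mem_inter.2 ⟨(hpc n hn y hy).2 hyn, hy⟩)
          (Fin.ext (by rw [fc_val (hX.Ul y hy)]; exact h))
  have hRs : RsQ η' ε3 G d (YsK X) U (fun v => fc d (cR v)) (fun v => fc d (c v))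
      (fun v => (Ft (xo G X) t v).image (fc d)) univ := by
    refine { UY := ?_, Uc := ?_, Ui := ?_, Ua := ?_, Uk := fun y _ => mem_univ _, Uf := ?_,
             Uo := ?_, Ub := ?_ }
    · intro y hy
      have h1 := (hX.UK y hy).1.1
      exact ⟨pV X.P (X.P.pc y), mem_filter.2 ⟨mem_YsK.2 ⟨_, h1.2, rfl⟩, (hX.UK y hy).2⟩,
        mem_pV'.2 ⟨h1.1, rfl⟩⟩
    · intro Y hY
      obtain ⟨n, hn, rfl⟩ := mem_YsK.1 hY
      exact hX.Uc n hn
    · intro Y hY y hy y' hy' h
      obtain ⟨n, hn, rfl⟩ := mem_YsK.1 hY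
      obtain ⟨h1, h2⟩ := mem_inter.1 hy
      obtain ⟨h1', h2'⟩ := mem_inter.1 hy'
      exact hX.Ui y h2 y' h2' (by rw [(mem_pV'.1 h1).2, (mem_pV'.1 h1').2])
        (fc_inj (hX.Ul y h2) (hX.Ul y' h2') h)
    · intro y hy y' hy' hadj h
      exact hX.Ua y hy y' hy' hadj (fc_inj (hX.Ul y hy) (hX.Ul y' hy') h)
    · intro y hy h
      have h1 := (hmemE y _ (hX.Ul y hy)).1 h
      refine hX.Uf y hy ?_
      unfold Ft at h1 ⊢
      rw [nb_xt_xo (hX.UK y hy).1]
      exact h1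
    · intro y hy w hw hadj h
      have hw' : ¬ InT X Ty.K w := fun h' => hw (inS_iff.2 h')
      exact hX.Uo y hy w hw' hadj (fc_inj (hX.clt w hw') (hX.Ul y hy) h)
    · intro Y hY b hb
      obtain ⟨hY1, hY2⟩ := mem_filter.1 hY
      obtain ⟨n, hn, rfl⟩ := mem_YsK.1 hY1
      refine le_trans ?_ ((hX.Ub n hn hY2 (b : ℕ) ?_).trans
        (mul_le_mul_of_nonneg_right he1 hd0))
      · have h1 : (U.filter (fun y => y ∉ pV X.P n ∧ fc d (cR y) = b)) ⊆
            U.filter (fun y => X.P.pc y ≠ n ∧ cR y = (b : ℕ)) := by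
          intro y hy
          obtain ⟨hy0, hy1, hy2⟩ := mem_filter.1 hy
          refine mem_filter.2 ⟨hy0, fun h => hy1 ((hpc n hn y hy0).2 h), ?_⟩
          rw [← hy2, fc_val (hX.Ul y hy0)]
        exact_mod_cast sum_le_sum_of_subset h1
      · intro y hy hyn h
        exact hb y (mem_inter.2 ⟨(hpc n hn y hy).2 hyn, hy⟩)
          (Fin.ext (by rw [fc_val (hX.Ul y hy)]; exact h))
  have hCu : ∀ j, (((A.C j).image (fc d)).card : ℝ) ≤ πk * d + 1 := by
    intro j
    refine le_trans ?_ (hA.Cc j).2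
    exact_mod_cast card_image_le
  obtain ⟨c', t3, hT⟩ := hKR τ G (YsK X) (HsK X) U _ _ _ _ _ _ _ _ _ _ _ hG
    (fun Y hY => (hYH Y hY).trans (mul_le_mul_of_nonneg_right hη2 (Nat.cast_nonneg _)))
    (fun y hy h => (hX.UK y hy).1.2 (mem_filter.1 h).1) hO hCu hOwn hRs
  refine ⟨fun v => (c' v : ℕ), fun v w => (t3 v w : ℕ), ?_⟩
  refine { clt := fun v => (c' v).2, cc := ?_, sym := ?_, tlt := fun v w _ => (t3 v w).2,
           inj := ?_, tc := ?_ }
  · intro v w hvw h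
    exact hT.1 v w hvw (Fin.ext h)
  · intro v w
    change ((t3 v w : Fin (d + 2)) : ℕ) = t3 w v
    rw [hT.2.1 v w]
  · intro v w hw w' hw' h
    exact hT.2.2.1 v hw hw' (Fin.ext h)
  · intro v w hvw h
    exact hT.2.2.2 v w hvw (Fin.ext h)

end

/-- **KX4** -/
theorem stmt_KX4 (hKR : Stmt_KR.{u}) : Stmt_KX4.{u} := by
  obtain ⟨πk, θk, hπ1, hπ2, hθ0, hθ1, hKR⟩ := hKR
  refine ⟨πk, θk, hπ1, hπ2, hθ0, hθ1, ?_⟩
  intro z hz hz1
  obtain ⟨δ, e0, θ', η0, η', d0, hδ, he0, hθ', hη0, hη', hKR⟩ := hKR z hz hz1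
  obtain ⟨η, hη⟩ : ∃ η : ℝ, η = min (min (δ / 2) (z / 100)) (min η0 (1 / 10 ^ 4)) := ⟨_, rfl⟩
  have hm : 0 < η := by
    rw [hη]
    exact lt_min (lt_min (by linarith) (by linarith)) (lt_min hη0 (by norm_num))
  have hm1 : η ≤ δ / 2 := by rw [hη]; exact (min_le_left _ _).trans (min_le_left _ _)
  have hm2 : η ≤ z / 100 := by rw [hη]; exact (min_le_left _ _).trans (min_le_right _ _)
  have hm3 : η ≤ η0 := by rw [hη]; exact (min_le_right _ _).trans (min_le_left _ _)
  have hm4 : η ≤ 1 / 10 ^ 4 := by rw [hη]; exact (min_le_right _ _).trans (min_le_right _ _)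
  refine ⟨min θ' (z / 100), η, min e0 (z / 4), η', max d0 1, lt_min hθ' (by linarith),
    min_le_right _ _, hm, hm2, lt_min he0 (by linarith), min_le_right _ _, hη', ?_⟩
  intro C g τ a M J S V _ N G d X A t c U cR hd hP hA hX
  exact KX4_main hθ1 (min_le_left _ _) (min_le_left _ _) hδ (by linarith) hm3 hm4 hm G d
    (le_trans (le_max_right _ _) hd) X A t c U cR hP hA hX
    (fun τ G Ys Hs U c0 tu cc cR t E K0 C p a Z h1 h2 h3 h4 h5 h6 h7 =>
      hKR τ G d Ys Hs U c0 tu cc cR t E K0 C p a Z (le_trans (le_max_left _ _) hd) h1 h2 h3 h4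
        h5 h6 h7)

end Pool.Agent.Work.MP_db9399_kr.helper68
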